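import Pool.Agent.MP_a382a5_co.Mg.Lower
import Pool.Agent.MP_a382a5_co.Mg.Construction

/-!
The transversal Helly number of disjoint unit balls in dimension `d ≥ 3` is at least `4 d - 4`.
-/

namespace Pool.Agent.Results.MP_a382a5_co.LowerBound

theorem result : ∀ d : ℕ, 3 ≤ d → ∃ S : Finset (EuclideanSpace ℝ (Fin d)),
    (∀ x ∈ S, ∀ y ∈ S, x ≠ y → Disjoint (Metric.closedBall x 1) (Metric.closedBall y 1)) ∧
    (∀ T ⊆ S, T.card ≤ 4 * d - 5 → ∃ p v : EuclideanSpace ℝ (Fin d), v ≠ 0 ∧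
      ∀ c ∈ T, ∃ t : ℝ, p + t • v ∈ Metric.closedBall c 1) ∧
    ¬ ∃ p v : EuclideanSpace ℝ (Fin d), v ≠ 0 ∧
      ∀ c ∈ S, ∃ t : ℝ, p + t • v ∈ Metric.closedBall c 1 := by
  intro d hd
  obtain ⟨m, rfl⟩ : ∃ m, d = m + 2 := ⟨d - 2, by omega⟩
  obtain ⟨U, hU, hUT, hUn⟩ := Pool.Agent.MP_a382a5_co.lower (show 1 ≤ m by omega)
    (EuclideanSpace.basisFun (Fin (m + 2)) ℝ).orthonormal
  refine ⟨U, fun x hx y hy hxy => ?_, fun T hT hc => ?_, fun h => hUn ?_⟩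
  · exact Metric.closedBall_disjoint_closedBall (by linarith [hU x hx y hy hxy])
  · exact (Pool.Agent.MP_a382a5_co.hasT_iff T).mp (hUT T hT (by omega))
  · exact (Pool.Agent.MP_a382a5_co.hasT_iff U).mpr h

end Pool.Agent.Results.MP_a382a5_co.LowerBound
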