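import Pool.Agent.MP_a382a5_co.Mg.Lower
import Pool.Agent.MP_a382a5_co.Mg.Construction

/-!
Danzer's question: the transversal Helly numbers of disjoint unit balls exist and increase strictly
with the dimension (arbitrary, possibly infinite, families).
-/

namespace Pool.Agent.Results.MP_a382a5_co.StrictGrowth

open Pool.Agent.MP_a382a5_co

/-- some line meets all the closed unit balls centred at the points of `S` -/
def Transversal {d : ℕ} (S : Set (EuclideanSpace ℝ (Fin d))) : Prop :=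
  ∃ p v : EuclideanSpace ℝ (Fin d), v ≠ 0 ∧ ∀ c ∈ S, ∃ t : ℝ, p + t • v ∈ Metric.closedBall c 1

/-- `T(k)` implies `T` for every family of pairwise disjoint closed unit balls in dimension `d` -/
def Helly (d k : ℕ) : Prop :=
  ∀ S : Set (EuclideanSpace ℝ (Fin d)),
    (∀ x ∈ S, ∀ y ∈ S, x ≠ y → Disjoint (Metric.closedBall x 1) (Metric.closedBall y 1)) →
    (∀ T ⊆ S, T.encard ≤ k → Transversal T) → Transversal S

lemma sep_of_disjoint {d : ℕ} {x y : EuclideanSpace ℝ (Fin d)}
    (h : Disjoint (Metric.closedBall x 1) (Metric.closedBall y 1)) : 2 < dist x y := by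
  have := (disjoint_closedBall_closedBall_iff zero_le_one zero_le_one).mp h
  linarith

lemma compact_step {d : ℕ} (S : Set (EuclideanSpace ℝ (Fin d)))
    (h : ∀ T : Finset (EuclideanSpace ℝ (Fin d)), (T : Set _) ⊆ S → HasT T) : Transversal S := by
  classical
  rcases S.eq_empty_or_nonempty with rfl | ⟨a, ha⟩
  · obtain ⟨p, v, hv, -⟩ := h ∅ (by simp)
    exact ⟨p, v, by rintro rfl; simp at hv, by simp⟩
  let K : Set (EuclideanSpace ℝ (Fin d) × EuclideanSpace ℝ (Fin d)) :=
    Metric.closedBall a 1 ×ˢ Metric.sphere 0 1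
  have hK : IsCompact K := (isCompact_closedBall a 1).prod (isCompact_sphere 0 1)
  let Z : S → Set (EuclideanSpace ℝ (Fin d) × EuclideanSpace ℝ (Fin d)) :=
    fun c => {z | ‖off z.1 z.2 (c : EuclideanSpace ℝ (Fin d))‖ ≤ 1}
  have hZ : ∀ c, IsClosed (Z c) := fun c => by
    apply isClosed_le _ continuous_const
    unfold off
    fun_prop
  have hne : (K ∩ ⋂ c, Z c).Nonempty := by
    refine hK.inter_iInter_nonempty Z hZ fun u => ?_
    obtain ⟨p, v, hv, hpv⟩ := h (insert a (u.image (↑))) (by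
      intro x hx
      simp only [Finset.coe_insert, Finset.coe_image, Set.mem_insert_iff, Set.mem_image] at hx
      rcases hx with rfl | ⟨y, -, rfl⟩
      · exact ha
      · exact y.2)
    refine ⟨(p + (inner ℝ v (a - p)) • v, v), ⟨?_, by simpa using hv⟩, ?_⟩
    · have := hpv a (Finset.mem_insert_self _ _)
      rwa [off, sub_sub, ← dist_eq_norm, dist_comm] at this
    · simp only [Set.mem_iInter]
      intro c hc
      show ‖off (p + (inner ℝ v (a - p)) • v) v (c : EuclideanSpace ℝ (Fin d))‖ ≤ 1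
      rw [off_shift hv]
      exact hpv c (Finset.mem_insert_of_mem (Finset.mem_image_of_mem _ hc))
  obtain ⟨⟨p, v⟩, ⟨-, hv⟩, hz⟩ := hne
  have hv : ‖v‖ = 1 := by simpa using hv
  refine ⟨p, v, by rintro rfl; simp at hv, fun c hc => ⟨inner ℝ v (c - p), ?_⟩⟩
  have : ‖off p v c‖ ≤ 1 := Set.mem_iInter.mp hz ⟨c, hc⟩
  rwa [off, sub_sub, ← dist_eq_norm, dist_comm] at this

lemma helly_upper (m : ℕ) (hm : 1 ≤ m) : Helly (m + 1) (4 * m + 3) := by
  intro S hS hT
  refine compact_step S fun U hU => ?_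
  have h1 : Sep U := fun x hx y hy hxy => sep_of_disjoint (hS x (hU hx) y (hU hy) hxy)
  have h2 : ∀ T ⊆ U, T.card ≤ 4 * m + 3 → HasT T := fun T a b => by
    refine (hasT_iff T).mpr (hT T ((Finset.coe_subset.mpr a).trans hU) ?_)
    rw [Set.encard_coe_eq_coe_finsetCard]
    exact_mod_cast b
  rcases Nat.lt_or_ge m 2 with h3 | h3
  · obtain rfl : m = 1 := by omega
    exact upper (k := 1) (m := 6) finrank_euclideanSpace_fin le_rfl pack_plane (by omega)
      (by omega) U h1 h2
  · exact upper (k := m) (m := 9) finrank_euclideanSpace_fin hm pack_nine (by omega) (by omega)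
      U h1 h2

lemma helly_lower (m k : ℕ) (hm : 1 ≤ m) (h : Helly (m + 2) k) : 4 * m + 4 ≤ k := by
  by_contra hk
  obtain ⟨U, hU, hUT, hUn⟩ := lower hm (EuclideanSpace.basisFun (Fin (m + 2)) ℝ).orthonormal
  refine hUn ((hasT_iff U).mpr (h U (fun x hx y hy hxy => ?_) fun T hT hc => ?_))
  · exact Metric.closedBall_disjoint_closedBall (by linarith [hU x hx y hy hxy])
  · have hf : T.Finite := U.finite_toSet.subset hT
    lift T to Finset (EuclideanSpace ℝ (Fin (m + 2))) using hf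
    rw [Set.encard_coe_eq_coe_finsetCard] at hc
    have hc : T.card ≤ k := by exact_mod_cast hc
    exact (hasT_iff T).mp (hUT T (Finset.coe_subset.mp hT) (by omega))

theorem result : ∀ d : ℕ, 2 ≤ d → ∃ a b : ℕ,
    IsLeast {k : ℕ | 1 ≤ k ∧ Helly d k} a ∧ IsLeast {k : ℕ | 1 ≤ k ∧ Helly (d + 1) k} b ∧
      a < b := by
  classical
  intro d hd
  obtain ⟨m, rfl⟩ : ∃ m, d = m + 1 := ⟨d - 1, by omega⟩
  have hm : 1 ≤ m := by omega
  have e1 : ∃ k, 1 ≤ k ∧ Helly (m + 1) k := ⟨4 * m + 3, by omega, helly_upper m hm⟩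
  have e2 : ∃ k, 1 ≤ k ∧ Helly (m + 1 + 1) k :=
    ⟨4 * (m + 1) + 3, by omega, helly_upper (m + 1) (by omega)⟩
  refine ⟨Nat.find e1, Nat.find e2, ⟨Nat.find_spec e1, fun k hk => Nat.find_min' e1 hk⟩,
    ⟨Nat.find_spec e2, fun k hk => Nat.find_min' e2 hk⟩, ?_⟩
  have h1 : Nat.find e1 ≤ 4 * m + 3 := Nat.find_min' e1 ⟨by omega, helly_upper m hm⟩
  have h2 := helly_lower m _ hm (Nat.find_spec e2).2
  omega

end Pool.Agent.Results.MP_a382a5_co.StrictGrowth
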